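import Pool.Agent.Helper22.AEL.Hin

/-!
# Arithmetical solutions of the theorems of Auslander-Ellis and of Hindman

`X = (ℕ → Fin k)` with the map `T u = u ∘ t`, `t` computable.  For `t = Nat.succ` this is the shift;
with a pairing of `ℕ × ℕ` it is the shift of a sequence of rows.

The notions used in the statement (all in `Pool/Agent/Helper22/AEL`):

* `Lim n f` (file `Lim`): `f` is an `n`-fold iterated limit of computable functions; `LP n P`: the
  predicate `P` has a characteristic function with `Lim n`.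
* `sh t n u i = u (t^[n] i)`, that is `T^n u`; `Ag m u v`: agreement on the coordinates below `m`;
  `UR t y`: uniformly recurrent; `Prox t x y`: proximal; `OC t x`: orbit closure; `MinimalSet t M`
  (file `Sym`).
* `RotOn t M`: proximal extension of a rotation; `WMOn t M`: weakly mixing (file `Cases`).
* `TowerOn t M h J`: a tower of `h` relatively distal or relatively proximal steps (file `Tower`).
-/

set_option autoImplicit false

namespace Pool.Agent.Helper94.AE.Arith

open Pool.Agent.Helper22.AEL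

/-- The minimal set `M` is of class `a`: it is weakly mixing and `a ≥ 2`, or a proximal extension
of a rotation of a Hausdorff abelian topological group and `a ≥ 4`, or it has a tower of height `h`
with `a ≥ 2 + 2 h` (`h = 1` for distal sets). -/
def OfClass {k : ℕ} (t : ℕ → ℕ) (a : ℕ) (M : Set (ℕ → Fin k)) : Prop :=
  (2 ≤ a ∧ WMOn t M) ∨ (4 ≤ a ∧ RotOn t M) ∨ ∃ (h : ℕ) (J : ℕ → Set ℕ),
    2 + 2 * h ≤ a ∧ TowerOn t M h J

/-- **Main theorem.** Let `t` and the point `x` be computable.  There is a minimal set `M` in the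
orbit closure of `x` such that, whenever `M` is of class `a`, the Auslander-Ellis theorem has a
solution for `x` which is an `a`-fold iterated limit of computable functions, and for the colouring
`c n = (T^n x) 0` Hindman's theorem has a solution `H` with such a characteristic function. -/
theorem main {k : ℕ} {t : ℕ → ℕ} (ht : Computable t) {x : ℕ → Fin k} (hx : Computable x) :
    ∃ M : Set (ℕ → Fin k), MinimalSet t M ∧ M ⊆ OC t x ∧ ∀ a : ℕ, OfClass t a M →
      (∃ y : ℕ → Fin k, UR t y ∧ Prox t x y ∧ Lim a y) ∧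
      ∀ c : ℕ → Fin k, (∀ n, c n = x (t^[n] 0)) →
        ∃ H : Set ℕ, H.Infinite ∧ LP a (fun n => n ∈ H) ∧ (∀ n ∈ H, 0 < n) ∧
          ∃ v, ∀ F : Finset ℕ, F.Nonempty → (∀ n ∈ F, n ∈ H) → c (∑ n ∈ F, n) = v := by
  have hmin := MM_minimal (t := t) x
  refine ⟨MM t x, hmin, MM_OC x, fun a hM => ?_⟩
  have h1 : ∃ y : ℕ → Fin k, UR t y ∧ Prox t x y ∧ Lim a y := by
    have hLM : LP 2 (LM (MM t x)) := LP_MM ht hx
    have hl : ∀ z ∈ MM t x, ∀ m N, ∃ n ≥ N, Ag m (sh t n x) z := fun z hz => MM_late hz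
    rcases hM with ⟨ha, h⟩ | ⟨ha, h⟩ | ⟨h', J, ha, h⟩
    · obtain ⟨y, hy, hxy, hyL⟩ := case_wm ht hx hmin hLM hl (fun z hz b hb m => by
        obtain ⟨L, hL⟩ := MM_hit hz (MM_not hb (mem_cy_pc.2 (Ag.refl m b)))
        exact ⟨L, fun n => by
          obtain ⟨l, hl', h2⟩ := hL n
          exact ⟨l, hl', mem_cy_pc.1 h2⟩⟩) h
      exact ⟨y, MM_UR hy, hxy, hyL.mono ha⟩
    · obtain ⟨y, hy, hxy, hyL⟩ := case_rot ht hx hmin hLM hl h
      exact ⟨y, MM_UR hy, hxy, hyL.mono ha⟩
    · obtain ⟨y, hy, hxy, hyL⟩ := case_tower ht hx hmin hLM hl h' J h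
      exact ⟨y, MM_UR hy, hxy, hyL.mono ha⟩
  refine ⟨h1, fun c hc => ?_⟩
  obtain ⟨y, hyU, hxy, hyL⟩ := h1
  have hiter : Lim a (fun n : ℕ => t^[n] 0) := Lim.iter ht Lim.id (Lim.const 0)
  have hcL : Lim a c := by
    have h2 : c = fun n => x (t^[n] 0) := funext hc
    rw [h2]
    exact (Lim.of_computable a hx).comp hiter
  have hyL' : Lim a (fun n => y (t^[n] 0)) := hyL.comp hiter
  obtain ⟨H, hH, hHL, hH0, hF⟩ := hindman_of_point hcL hyL' (by
    intro m N
    obtain ⟨K, -, hK⟩ := exists_mod t 1 m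
    obtain ⟨n, hn, h3, h4⟩ := strong_prox hyU hxy K N
    refine ⟨n, hn, fun i hi => ?_⟩
    have h5 := hK i hi 0 Nat.one_pos
    have e1 : t^[i + n] 0 = t^[n] (t^[i] 0) := by rw [add_comm, Function.iterate_add_apply]
    rw [hc, e1]
    exact ⟨h3 _ h5, h4 _ h5⟩)
  exact ⟨H, hH, hHL, hH0, _, hF⟩

end Pool.Agent.Helper94.AE.Arith
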