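import Pool.Agent.Helper32.HT.Bits
import Pool.Agent.Helper32.HT.Forced
import Pool.Agent.Helper32.HT.Comp

/-!
# Bits with limits deciding between two `Σ⁰₄` sets, and the digit lists
-/

set_option autoImplicit false

namespace Pool.Agent.Helper94.AE

open Filter Pool.Agent.Helper32.HT

/-- The first witness which looks right at `a`. -/
def fu (O : ℕ → ℕ → ℕ → ℕ → Bool) (e y a : ℕ) : ℕ :=
  ((List.range a).find? fun u => (List.range a).all fun j => O e y u j).getD a

/-- The comparison of the first witnesses for two indices; `n` codes the two indices and the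
number asked about. -/
def Bs (O : ℕ → ℕ → ℕ → ℕ → Bool) (n a : ℕ) : Bool :=
  decide (fu O n.unpair.1.unpair.1 n.unpair.2 a ≤ fu O n.unpair.1.unpair.2 n.unpair.2 a)

/-- The letters. -/
def let4 (n a v b : ℕ) : Bool := Bs (Oap v b) n a

lemma fu_congr {O O' : ℕ → ℕ → ℕ → ℕ → Bool} {e y a : ℕ}
    (h : ∀ u < a, ∀ j < a, O e y u j = O' e y u j) : fu O e y a = fu O' e y a := by
  unfold fu
  rw [find_congr (q := fun u => (List.range a).all fun j => O' e y u j)]
  intro u hu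
  rw [List.mem_range] at hu
  rw [Bool.eq_iff_iff, List.all_eq_true, List.all_eq_true]
  constructor
  · intro h1 j hj
    rw [← h u hu j (List.mem_range.1 hj)]
    exact h1 j hj
  · intro h1 j hj
    rw [h u hu j (List.mem_range.1 hj)]
    exact h1 j hj

lemma ev_agree (e y a : ℕ) : ∀ᶠ v in atTop, ∀ b,
    (∀ u < v, (∃ t, Wst t u = true) → Wst b u = true) →
      ∀ u < a, ∀ j < a, Oap v b e y u j = Oinf e y u j := by
  have h1 : ∀ᶠ v in atTop, ∀ u < a, ∀ j < a, ∀ b,
      (∀ u < v, (∃ t, Wst t u = true) → Wst b u = true) →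
        Oap v b e y u j = Oinf e y u j := by
    refine (eventually_all_finite (Set.finite_lt_nat a)).2 fun u _ => ?_
    refine (eventually_all_finite (Set.finite_lt_nat a)).2 fun j _ => ?_
    exact oap_limit e y u j
  filter_upwards [h1] with v hv b hb u hu j hj
  exact hv u hu j hj b hb

/-- The letters converge to the bits. -/
lemma let4_limit (n a : ℕ) : ∃ v0, ∀ v ≥ v0, ∀ b,
    (∀ u < v, (∃ t, Wst t u = true) → Wst b u = true) → let4 n a v b = Bs Oinf n a := by
  obtain ⟨v0, h⟩ := eventually_atTop.1 ((ev_agree n.unpair.1.unpair.1 n.unpair.2 a).and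
    (ev_agree n.unpair.1.unpair.2 n.unpair.2 a))
  refine ⟨v0, fun v hv b hb => ?_⟩
  obtain ⟨h1, h2⟩ := h v hv
  unfold let4 Bs
  rw [fu_congr (h1 b hb), fu_congr (h2 b hb)]

/-- The least right witness is found in the end. -/
lemma fu_eq {O : ℕ → ℕ → ℕ → ℕ → Bool} {e y u0 : ℕ} (h0 : ∀ j, O e y u0 j = true)
    (hmin : ∀ u < u0, ∃ j, O e y u j = false) : ∀ᶠ a in atTop, fu O e y a = u0 := by
  have h1 : ∀ᶠ a in atTop, ∀ u < u0, ∃ j < a, O e y u j = false := by
    refine (eventually_all_finite (Set.finite_lt_nat u0)).2 fun u hu => ?_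
    obtain ⟨j, hj⟩ := hmin u hu
    filter_upwards [eventually_gt_atTop j] with a ha
    exact ⟨j, ha, hj⟩
  filter_upwards [h1, eventually_gt_atTop u0] with a ha hau
  unfold fu
  have h2 : (List.range a).find? (fun u => (List.range a).all fun j => O e y u j) = some u0 := by
    rw [List.find?_range_eq_some]
    refine ⟨?_, List.mem_range.2 hau, ?_⟩
    · rw [List.all_eq_true]
      exact fun j _ => h0 j
    · intro u hu
      obtain ⟨j, hj, hj2⟩ := ha u hu
      rw [Bool.not_eq_true', ← Bool.not_eq_true, List.all_eq_true]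
      intro h3
      rw [h3 j (List.mem_range.2 hj)] at hj2
      exact absurd hj2 (by simp)
  rw [h2]
  rfl

/-- Wrong witnesses are refuted. -/
lemma fu_gt {O : ℕ → ℕ → ℕ → ℕ → Bool} {e y u0 : ℕ}
    (hmin : ∀ u ≤ u0, ∃ j, O e y u j = false) : ∀ᶠ a in atTop, u0 < fu O e y a := by
  have h1 : ∀ᶠ a in atTop, ∀ u < u0 + 1, ∃ j < a, O e y u j = false := by
    refine (eventually_all_finite (Set.finite_lt_nat (u0 + 1))).2 fun u hu => ?_
    obtain ⟨j, hj⟩ := hmin u (Nat.lt_succ_iff.1 hu)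
    filter_upwards [eventually_gt_atTop j] with a ha
    exact ⟨j, ha, hj⟩
  filter_upwards [h1, eventually_gt_atTop u0] with a ha hau
  unfold fu
  cases h : (List.range a).find? (fun u => (List.range a).all fun j => O e y u j) with
  | none => exact hau
  | some u =>
    rw [List.find?_range_eq_some] at h
    by_contra hlt
    rw [Option.getD_some, not_lt] at hlt
    obtain ⟨j, hj, hj2⟩ := ha u (Nat.lt_succ_of_le hlt)
    have h3 := h.1
    rw [List.all_eq_true] at h3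
    rw [h3 j (List.mem_range.2 hj)] at hj2
    exact absurd hj2 (by simp)

lemma exists_least {O : ℕ → ℕ → ℕ → ℕ → Bool} {e y : ℕ} (h : ∃ a, ∀ j, O e y a j = true) :
    ∃ u0, (∀ j, O e y u0 j = true) ∧ ∀ u < u0, ∃ j, O e y u j = false := by
  classical
  refine ⟨Nat.find h, Nat.find_spec h, fun u hu => ?_⟩
  have := Nat.find_min h hu
  push Not at this
  obtain ⟨j, hj⟩ := this
  exact ⟨j, by simpa using hj⟩

/-- The bits of a number in the first set converge to `true`. -/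
lemma bs_true {O : ℕ → ℕ → ℕ → ℕ → Bool} {e e' y : ℕ} (h : ∃ a, ∀ j, O e y a j = true)
    (h' : ¬ ∃ a, ∀ j, O e' y a j = true) :
    ∀ᶠ a in atTop, Bs O (Nat.pair (Nat.pair e e') y) a = true := by
  obtain ⟨u0, hu, hmin⟩ := exists_least h
  have h2 : ∀ u ≤ u0, ∃ j, O e' y u j = false := by
    intro u _
    by_contra h3
    push Not at h3
    exact h' ⟨u, fun j => by simpa using h3 j⟩
  filter_upwards [fu_eq hu hmin, fu_gt h2] with a ha ha'
  unfold Bs
  simp only [Nat.unpair_pair]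
  rw [decide_eq_true_eq, ha]
  exact ha'.le

/-- The bits of a number in the second set converge to `false`. -/
lemma bs_false {O : ℕ → ℕ → ℕ → ℕ → Bool} {e e' y : ℕ} (h : ∃ a, ∀ j, O e' y a j = true)
    (h' : ¬ ∃ a, ∀ j, O e y a j = true) :
    ∀ᶠ a in atTop, Bs O (Nat.pair (Nat.pair e e') y) a = false := by
  obtain ⟨u0, hu, hmin⟩ := exists_least h
  have h2 : ∀ u ≤ u0, ∃ j, O e y u j = false := by
    intro u _
    by_contra h3
    push Not at h3
    exact h' ⟨u, fun j => by simpa using h3 j⟩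
  filter_upwards [fu_eq hu hmin, fu_gt h2] with a ha ha'
  unfold Bs
  simp only [Nat.unpair_pair]
  rw [decide_eq_false_iff_not, ha]
  omega

/-! ### the value read off from a colour -/

/-- The bit determined by a colour. -/
def rd (c : G × Fin 3) : Bool :=
  decide (c.2 + tau2 (0, false) (mul (mul (x true) x0i) c.1) = 0)

lemma rd_eq : ∀ (Q : G) (b : Bool) (R : G) (T : Fin 3),
    R = mul (mul (mul Q (x b)) x0i) R → T = T + tau2 Q R + T → rd (R, T) = b := by
  decide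

/-! ### computability -/

lemma prim_fu {α : Type*} [Primcodable α] {O : α → ℕ → ℕ → ℕ → ℕ → Bool}
    (hO : Primrec (fun p : α × (ℕ × ℕ × ℕ × ℕ) => O p.1 p.2.1 p.2.2.1 p.2.2.2.1 p.2.2.2.2)) :
    Primrec (fun p : α × (ℕ × ℕ × ℕ) => fu (O p.1) p.2.1 p.2.2.1 p.2.2.2) := by
  unfold fu
  have ha : Primrec (fun p : α × (ℕ × ℕ × ℕ) => p.2.2.2) :=
    Primrec.snd.comp (Primrec.snd.comp Primrec.snd)
  refine Primrec.option_getD.comp (prim_find (Primrec.list_range.comp ha) ?_) ha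
  refine Primrec₂.mk ?_
  refine prim_all (Primrec.list_range.comp (ha.comp Primrec.fst)) ?_
  refine Primrec₂.mk ?_
  have h := hO.comp (Primrec.pair
    (Primrec.fst.comp (Primrec.fst.comp (Primrec.fst (α := (α × (ℕ × ℕ × ℕ)) × ℕ) (β := ℕ))))
    (Primrec.pair (Primrec.fst.comp (Primrec.snd.comp (Primrec.fst.comp Primrec.fst)))
      (Primrec.pair (Primrec.fst.comp (Primrec.snd.comp (Primrec.snd.comp
        (Primrec.fst.comp Primrec.fst))))
        (Primrec.pair (Primrec.snd.comp Primrec.fst) Primrec.snd))))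
  exact h

lemma prim_let4 : Primrec (fun p : ℕ × (ℕ × ℕ × ℕ) => let4 p.1 p.2.1 p.2.2.1 p.2.2.2) := by
  unfold let4 Bs
  have hn : Primrec (fun p : ℕ × (ℕ × ℕ × ℕ) => p.1) := Primrec.fst
  have h1 : Primrec (fun p : ℕ × (ℕ × ℕ × ℕ) => p.1.unpair.1) :=
    Primrec.fst.comp (Primrec.unpair.comp hn)
  have h2 : Primrec (fun p : ℕ × (ℕ × ℕ × ℕ) => p.1.unpair.2) :=
    Primrec.snd.comp (Primrec.unpair.comp hn)
  have h3 : Primrec (fun p : ℕ × (ℕ × ℕ × ℕ) => p.1.unpair.1.unpair.1) :=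
    Primrec.fst.comp (Primrec.unpair.comp h1)
  have h4 : Primrec (fun p : ℕ × (ℕ × ℕ × ℕ) => p.1.unpair.1.unpair.2) :=
    Primrec.snd.comp (Primrec.unpair.comp h1)
  have ha : Primrec (fun p : ℕ × (ℕ × ℕ × ℕ) => p.2.1) := Primrec.fst.comp Primrec.snd
  have hvb : Primrec (fun p : ℕ × (ℕ × ℕ × ℕ) => ((p.2.2.1, p.2.2.2) : ℕ × ℕ)) :=
    Primrec.snd.comp Primrec.snd
  have hf := prim_fu (α := ℕ × ℕ) (O := fun p => Oap p.1 p.2) prim_Oap
  have g1 := hf.comp (Primrec.pair hvb (Primrec.pair h3 (Primrec.pair h2 ha)))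
  have g2 := hf.comp (Primrec.pair hvb (Primrec.pair h4 (Primrec.pair h2 ha)))
  exact Primrec.nat_le.decide.comp g1 g2

lemma prim_clo : Primrec (fun p : ℕ × ℕ => cl Wst (let4 p.1) (dig p.2)) := by
  have h := (prim_cl prim_let4).comp (Primrec.pair (Primrec.fst (α := ℕ) (β := ℕ))
    (prim_dig.comp Primrec.snd))
  exact h

/-- The forced equality for the numbers `c1`, `c2 + c3`, `c1 + c2 + c3`. -/
theorem forced_bit {n c1 c : ℕ} (hc1 : c1 ≠ 0) {C : G × Fin 3}
    (hC : cl Wst (let4 n) (dig c1) = C)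
    (hE : ∀ N, ∃ c2, c2 ≠ 0 ∧ 2 ^ N ∣ c2 ∧ ∀ N', ∃ c3, c3 ≠ 0 ∧ 2 ^ N' ∣ c3 ∧
      cl Wst (let4 n) (dig (c1 + (c2 + c3))) = C ∧ cl Wst (let4 n) (dig (c2 + c3)) = C)
    (hc : (dig c1).getLastD 0 = c) : Bs Oinf n c = rd C := by
  have hD := dig_ne_nil hc1
  rw [← getLast_eq hD] at hc
  obtain ⟨v0, hv0⟩ := let4_limit n ((dig c1).getLast hD)
  set m := (dig c1).getLast hD with hm
  obtain ⟨N0, hN0⟩ := exists_settled wst_mono (max v0 (m + 1))
  obtain ⟨K, hK⟩ : ∃ K, c1 < 2 ^ K := ⟨c1, Nat.lt_two_pow_self⟩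
  set N := max K (max N0 (max v0 (m + 1))) with hNdef
  have hNs : Settled Wst N (max v0 (m + 1)) :=
    hN0.mono wst_mono ((le_max_left _ _).trans (le_max_right _ _))
  have hNle : max v0 (m + 1) ≤ N := (le_max_right _ _).trans (le_max_right _ _)
  obtain ⟨c2, hc2, hd2, hE⟩ := hE N
  have hE1 := dig_ne_nil hc2
  obtain ⟨N1, hN1⟩ := exists_settled wst_mono ((dig c2).getLast hE1 + 1)
  obtain ⟨K', hK'⟩ : ∃ K', c2 < 2 ^ K' := ⟨c2, Nat.lt_two_pow_self⟩
  set N' := max (max K K') (max N1 ((dig c2).getLast hE1 + 1)) with hN'def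
  have hN's : Settled Wst N' ((dig c2).getLast hE1 + 1) :=
    hN1.mono wst_mono ((le_max_left _ _).trans (le_max_right _ _))
  obtain ⟨c3, hc3, hd3, hf, hf'⟩ := hE N'
  have hE2 := dig_ne_nil hc3
  have hK3 : 2 ^ K ∣ c3 :=
    (pow_dvd_pow 2 ((le_max_left _ _).trans (le_max_left _ _))).trans hd3
  have hK3' : 2 ^ K' ∣ c3 :=
    (pow_dvd_pow 2 ((le_max_right _ _).trans (le_max_left _ _))).trans hd3
  have hK2 : 2 ^ K ∣ c2 := (pow_dvd_pow 2 (le_max_left _ _)).trans hd2
  have hdig : dig (c1 + (c2 + c3)) = dig c1 ++ (dig c2 ++ dig c3) := by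
    rw [dig_add hK (dvd_add hK2 hK3), dig_add hK' hK3']
  have hdig' : dig (c2 + c3) = dig c2 ++ dig c3 := dig_add hK' hK3'
  have hsub : ∀ K, K ≤ max v0 (m + 1) → Settled Wst N K :=
    fun K hK u hu => hNs u (hu.trans_le hK)
  obtain ⟨Q, hQ⟩ := key (ell := let4 n) wst_mono hD (B := Bs Oinf n) (v0 := v0)
    hv0 (hsub v0 (le_max_left _ _)) ((le_max_left _ _).trans hNle)
    (hsub _ (le_max_right _ _)) ((le_max_right _ _).trans hNle)
    hE1 (fun y hy => le_of_mem_dig hd2 hy) hN's ((le_max_right _ _).trans (le_max_right _ _))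
    hE2 (fun y hy => le_of_mem_dig hd3 hy)
  rw [← hdig, hf, ← hdig'] at hQ
  obtain ⟨R, T⟩ := C
  rw [cl, Prod.mk.injEq] at hC hf'
  rw [hC.1, hC.2, hf'.1, hf'.2, Prod.mk.injEq] at hQ
  rw [rd_eq Q _ R T hQ.1 hQ.2, ← hc]

end Pool.Agent.Helper94.AE
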