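import Mathlib.Topology.MetricSpace.Basic
import Mathlib.Topology.UniformSpace.HeineCantor
import Mathlib.Topology.Instances.Nat
import Pool.Agent.Helper32.HT.Diag
import Pool.Agent.Helper94.AE.Bits

/-! # Solutions of the Auslander-Ellis theorem separate all disjoint `Σ⁰₄` sets -/

namespace Pool.Agent.Helper94.AE.Four

open Filter Pool.Agent.Helper32.HT Pool.Agent.Helper94.AE

/-- Points of the phase space `(Fin 3)^(ℕ × ℕ)`: row `r`, column `c`. -/
abbrev Pt : Type := ℕ → ℕ → Fin 3

/-- The shift of all rows. -/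
def shift (u : Pt) : Pt := fun r c => u r (c + 1)

/-- `y` is uniformly recurrent for the map `T`, with respect to the metric `d`. -/
def UniformlyRecurrent {X : Type} (d : MetricSpace X) (T : X → X) (y : X) : Prop :=
  ∀ ε > 0, ∃ m : ℕ, ∀ n : ℕ, ∃ k < m, d.dist (T^[n + k] y) y < ε

/-- `x` and `y` are proximal for the map `T`, with respect to the metric `d`. -/
def Proximal {X : Type} (d : MetricSpace X) (T : X → X) (x y : X) : Prop :=
  ∀ ε > 0, ∀ N : ℕ, ∃ n, N ≤ n ∧ d.dist (T^[n] x) (T^[n] y) < ε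

/-- The metric `d` induces the product topology (of the discrete topology on `Fin 3`). -/
def Compatible (d : MetricSpace Pt) : Prop :=
  d.toUniformSpace.toTopologicalSpace = (inferInstance : TopologicalSpace Pt)

/-- `y` is a solution of the Auslander-Ellis theorem for the point `x`: `y` is uniformly
recurrent and proximal to `x`, for some metric inducing the product topology. -/
def Solution (x y : Pt) : Prop :=
  ∃ d : MetricSpace Pt, Compatible d ∧ UniformlyRecurrent d shift y ∧ Proximal d shift x y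

/-- `S` is a `Σ⁰₄` set: `n ∈ S ↔ ∃ a, ∀ b, ∃ c, ∀ e, R (n, a, b, c, e)` for a computable
relation `R`. -/
def IsSigmaFour (S : Set ℕ) : Prop :=
  ∃ R : ℕ × ℕ × ℕ × ℕ × ℕ → Prop, ComputablePred R ∧
    ∀ n, n ∈ S ↔ ∃ a, ∀ b, ∃ c, ∀ e, R (n, a, b, c, e)

/-! ### iterates of the shift and windows -/

lemma shift_iter (u : Pt) (n r c : ℕ) : shift^[n] u r c = u r (n + c) := by
  induction n generalizing u with
  | zero => simp
  | succ n ih =>
    rw [Function.iterate_succ_apply, ih]
    show u r (n + c + 1) = u r (n + 1 + c)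
    congr 1
    ring

lemma const_near {X : Type} [MetricSpace X] [CompactSpace X] (f : X → Fin 3)
    (hf : Continuous f) : ∃ δ > 0, ∀ u v : X, dist u v < δ → f u = f v := by
  have hg : Continuous (fun u => ((f u : ℕ) : ℝ)) := by
    have h1 : Continuous (fun i : Fin 3 => ((i : ℕ) : ℝ)) := continuous_of_discreteTopology
    exact h1.comp hf
  have hu := CompactSpace.uniformContinuous_of_continuous hg
  rw [Metric.uniformContinuous_iff] at hu
  obtain ⟨δ, hδ, h⟩ := hu 1 one_pos
  refine ⟨δ, hδ, fun u v huv => ?_⟩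
  have h2 := h huv
  rw [Real.dist_eq] at h2
  have h3 : |(((f u : ℕ) : ℤ) - ((f v : ℕ) : ℤ) : ℤ)| < 1 := by
    have : (|(((f u : ℕ) : ℤ) - ((f v : ℕ) : ℤ) : ℤ)| : ℝ) < 1 := by
      push_cast
      exact h2
    exact_mod_cast this
  have h4 := Int.abs_lt_one_iff.1 h3
  apply Fin.ext
  omega

/-- points at small distance agree on a window -/
lemma window_near (d : MetricSpace Pt) (hd : Compatible d) (W : ℕ) :
    ∃ δ > 0, ∀ u v : Pt, d.dist u v < δ → ∀ r < W, ∀ c < W, u r c = v r c := by
  have hcomp : @CompactSpace Pt d.toUniformSpace.toTopologicalSpace := by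
    rw [hd]; infer_instance
  have hone : ∀ r c, ∃ δ > 0, ∀ u v : Pt, d.dist u v < δ → u r c = v r c := by
    intro r c
    refine @const_near Pt d hcomp (fun u => u r c) ?_
    have h0 : @Continuous Pt (Fin 3) (inferInstance : TopologicalSpace Pt) _
        (fun u : Pt => u r c) := (continuous_apply c).comp (continuous_apply r)
    have h1 : @Continuous Pt (Fin 3) d.toUniformSpace.toTopologicalSpace _
        (fun u : Pt => u r c) := by rw [hd]; exact h0
    exact h1
  choose δ hδ h using hone
  have hrow : ∀ r, ∀ W', ∃ η > 0, ∀ u v : Pt, d.dist u v < η → ∀ c < W', u r c = v r c := by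
    intro r W'
    induction W' with
    | zero => exact ⟨1, one_pos, fun _ _ _ c hc => absurd hc (by omega)⟩
    | succ n ih =>
      obtain ⟨η, hη, h'⟩ := ih
      refine ⟨min η (δ r n), lt_min hη (hδ r n), fun u v huv c hc => ?_⟩
      rcases Nat.lt_succ_iff_lt_or_eq.1 hc with hc | rfl
      · exact h' u v (lt_of_lt_of_le huv (min_le_left _ _)) c hc
      · exact h r c u v (lt_of_lt_of_le huv (min_le_right _ _))
  have hall : ∀ R, ∃ η > 0, ∀ u v : Pt, d.dist u v < η → ∀ r < R, ∀ c < W, u r c = v r c := by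
    intro R
    induction R with
    | zero => exact ⟨1, one_pos, fun _ _ _ r hr => absurd hr (by omega)⟩
    | succ n ih =>
      obtain ⟨η, hη, h'⟩ := ih
      obtain ⟨η', hη', h''⟩ := hrow n W
      refine ⟨min η η', lt_min hη hη', fun u v huv r hr => ?_⟩
      rcases Nat.lt_succ_iff_lt_or_eq.1 hr with hr | rfl
      · exact h' u v (lt_of_lt_of_le huv (min_le_left _ _)) r hr
      · exact h'' u v (lt_of_lt_of_le huv (min_le_right _ _))
  exact hall W

/-- the time `c` is good for the window `W` -/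
def GoodAt (x y : Pt) (W c : ℕ) : Prop :=
  ∀ r < W, ∀ j < W, x r (c + j) = y r j ∧ y r (c + j) = y r j

lemma exists_goodAt {x y : Pt} (h : Solution x y) (W N : ℕ) : ∃ c, N ≤ c ∧ GoodAt x y W c := by
  obtain ⟨d, hd, hu, hp⟩ := h
  obtain ⟨δ, hδ, h⟩ := window_near d hd W
  obtain ⟨m, hm⟩ := hu δ hδ
  obtain ⟨δ', hδ', h'⟩ := window_near d hd (W + m)
  obtain ⟨n, hn, hn'⟩ := hp δ' hδ' N
  obtain ⟨k, hk, hk'⟩ := hm n
  refine ⟨n + k, by omega, fun r hr j hj => ?_⟩
  have h1 := h _ _ hk' r hr j hj
  have h2 := h' _ _ hn' r (by omega) (k + j) (by omega)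
  rw [shift_iter] at h1
  rw [shift_iter, shift_iter] at h2
  have e1 : n + (k + j) = n + k + j := by ring
  rw [e1] at h2
  exact ⟨h2.trans h1, h1⟩

lemma good_add {x y : Pt} {W W' c c' : ℕ} (h : GoodAt x y W c) (h' : GoodAt x y W' c')
    (hW : W + c ≤ W') : GoodAt x y W (c + c') := by
  intro r hr j hj
  have e : c + c' + j = c' + (c + j) := by ring
  rw [e]
  have h1 := h' r (by omega) (c + j) (by omega)
  have h2 := h r hr j hj
  exact ⟨h1.1.trans h2.2, h1.2.trans h2.2⟩

lemma good_mono {x y : Pt} {W W' c : ℕ} (h : GoodAt x y W' c) (hW : W ≤ W') :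
    GoodAt x y W c := fun r hr j hj => h r (by omega) j (by omega)

/-! ### the point -/

/-- the colour of the number `c` for the letters of `n` -/
def clo (n c : ℕ) : G × Fin 3 := cl Wst (let4 n) (dig c)

/-- the coded point -/
def codePt : Pt := fun r c =>
  if r % 5 = 0 then (if c / 2 ^ (r / 5) % 2 = 1 then 1 else 0)
  else if r % 5 = 1 then (clo (r / 5) c).1.1
  else if r % 5 = 2 then (if (clo (r / 5) c).1.2 = true then 1 else 0)
  else if r % 5 = 3 then (clo (r / 5) c).2
  else (if rd (clo (r / 5) c) = true then 1 else 0)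

lemma codePt_computable : Computable (fun p : ℕ × ℕ => codePt p.1 p.2) := by
  apply Primrec.to_comp
  unfold codePt
  have hm : Primrec (fun p : ℕ × ℕ => p.1 % 5) :=
    Primrec.nat_mod.comp Primrec.fst (Primrec.const 5)
  have hd : Primrec (fun p : ℕ × ℕ => p.1 / 5) :=
    Primrec.nat_div.comp Primrec.fst (Primrec.const 5)
  have hc : Primrec (fun p : ℕ × ℕ => clo (p.1 / 5) p.2) := by
    have h := prim_clo.comp (Primrec.pair hd Primrec.snd)
    exact h
  have hmod : ∀ i : ℕ, PrimrecPred (fun p : ℕ × ℕ => p.1 % 5 = i) := fun i =>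
    Primrec.eq.comp hm (Primrec.const i)
  refine Primrec.ite (hmod 0) ?_ (Primrec.ite (hmod 1) ?_ (Primrec.ite (hmod 2) ?_
    (Primrec.ite (hmod 3) ?_ ?_)))
  · refine Primrec.ite (Primrec.eq.comp (Primrec.nat_mod.comp (Primrec.nat_div.comp Primrec.snd
      (prim_pow.comp (Primrec.const 2) hd)) (Primrec.const 2)) (Primrec.const 1))
      (Primrec.const 1) (Primrec.const 0)
  · exact (Primrec.dom_finite (fun C : G × Fin 3 => C.1.1)).comp hc
  · exact (Primrec.dom_finite (fun C : G × Fin 3 => if C.1.2 = true then (1 : Fin 3) else 0)).comp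
      hc
  · exact (Primrec.dom_finite (fun C : G × Fin 3 => C.2)).comp hc
  · exact (Primrec.dom_finite (fun C : G × Fin 3 => if rd C = true then (1 : Fin 3) else 0)).comp
      hc

lemma codePt_zero (i c : ℕ) : codePt (5 * i) c = if c.testBit i = true then 1 else 0 := by
  unfold codePt
  rw [if_pos (by omega), show 5 * i / 5 = i by omega, Nat.testBit_eq_decide_div_mod_eq]
  by_cases h : c / 2 ^ i % 2 = 1 <;> simp [h]

lemma codePt_one (n c : ℕ) : codePt (5 * n + 1) c = (clo n c).1.1 := by
  unfold codePt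
  rw [if_neg (by omega), if_pos (by omega), show (5 * n + 1) / 5 = n by omega]

lemma codePt_two (n c : ℕ) : codePt (5 * n + 2) c = if (clo n c).1.2 = true then 1 else 0 := by
  unfold codePt
  rw [if_neg (by omega), if_neg (by omega), if_pos (by omega),
    show (5 * n + 2) / 5 = n by omega]

lemma codePt_three (n c : ℕ) : codePt (5 * n + 3) c = (clo n c).2 := by
  unfold codePt
  rw [if_neg (by omega), if_neg (by omega), if_neg (by omega), if_pos (by omega),
    show (5 * n + 3) / 5 = n by omega]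

lemma codePt_four (n c : ℕ) : codePt (5 * n + 4) c = if rd (clo n c) = true then 1 else 0 := by
  unfold codePt
  rw [if_neg (by omega), if_neg (by omega), if_neg (by omega), if_neg (by omega),
    show (5 * n + 4) / 5 = n by omega]

section

variable {y : Pt}

lemma dvd_of_good (hgood : ∀ W N, ∃ c, N ≤ c ∧ GoodAt codePt y W c) {N W c : ℕ}
    (hW : 5 * N + 1 ≤ W) (hc : GoodAt codePt y W c) : 2 ^ N ∣ c := by
  obtain ⟨c', _, hc'⟩ := hgood (W + c) 0
  have hbit : ∀ i < N, ∀ s : ℕ, codePt (5 * i) s = y (5 * i) 0 →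
      ∀ s' : ℕ, codePt (5 * i) s' = y (5 * i) 0 → s.testBit i = s'.testBit i := by
    intro i _ s hs s' hs'
    rw [codePt_zero] at hs hs'
    by_cases h1 : s.testBit i = true
    · rw [if_pos h1] at hs
      by_cases h2 : s'.testBit i = true
      · rw [h1, h2]
      · rw [if_neg h2, ← hs] at hs'
        exact absurd hs' (by decide)
    · rw [if_neg h1] at hs
      by_cases h2 : s'.testBit i = true
      · rw [if_pos h2, ← hs] at hs'
        exact absurd hs' (by decide)
      · rw [Bool.not_eq_true] at h1 h2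
        rw [h1, h2]
  have hmod : c % 2 ^ N = (c + c') % 2 ^ N := by
    apply Nat.eq_of_testBit_eq
    intro i
    rw [Nat.testBit_mod_two_pow, Nat.testBit_mod_two_pow]
    by_cases hi : i < N
    · have a1 := (hc (5 * i) (by omega) 0 (by omega)).1
      have a2 := (good_add hc hc' (le_refl _) (5 * i) (by omega) 0 (by omega)).1
      rw [Nat.add_zero] at a1 a2
      rw [hbit i hi c a1 (c + c') a2]
    · simp [hi]
  have hmod' : c % 2 ^ N = c' % 2 ^ N := by
    apply Nat.eq_of_testBit_eq
    intro i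
    rw [Nat.testBit_mod_two_pow, Nat.testBit_mod_two_pow]
    by_cases hi : i < N
    · have a1 := (hc (5 * i) (by omega) 0 (by omega)).1
      have a2 := (hc' (5 * i) (by omega) 0 (by omega)).1
      rw [Nat.add_zero] at a1 a2
      rw [hbit i hi c a1 c' a2]
    · simp [hi]
  have h0 : c' % 2 ^ N = 0 := by
    have h1 : (c + 0) ≡ (c + c') [MOD 2 ^ N] := by simpa [Nat.ModEq] using hmod
    have h2 := Nat.ModEq.add_left_cancel' c h1
    simpa [Nat.ModEq] using h2.symm
  exact Nat.dvd_of_mod_eq_zero (hmod'.trans h0)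

/-- The colours at good times agree. -/
lemma clo_of_good {n W c W' c' : ℕ} (hW : 5 * n + 5 ≤ W) (hc : GoodAt codePt y W c)
    (hW' : 5 * n + 5 ≤ W') (hc' : GoodAt codePt y W' c') : clo n c = clo n c' := by
  have h1 := (hc (5 * n + 1) (by omega) 0 (by omega)).1
  have h2 := (hc (5 * n + 2) (by omega) 0 (by omega)).1
  have h3 := (hc (5 * n + 3) (by omega) 0 (by omega)).1
  have h1' := (hc' (5 * n + 1) (by omega) 0 (by omega)).1
  have h2' := (hc' (5 * n + 2) (by omega) 0 (by omega)).1
  have h3' := (hc' (5 * n + 3) (by omega) 0 (by omega)).1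
  simp only [Nat.add_zero] at h1 h2 h3 h1' h2' h3'
  rw [← h1', codePt_one, codePt_one] at h1
  rw [← h2', codePt_two, codePt_two] at h2
  rw [← h3', codePt_three, codePt_three] at h3
  apply Prod.ext (Prod.ext h1 ?_) h3
  cases h4 : (clo n c).1.2 <;> cases h5 : (clo n c').1.2 <;> rw [h4, h5] at h2 <;> simp_all

/-- If the bits of `n` have a limit, it is read off from `y`. -/
lemma value_of_limit (hgood : ∀ W N, ∃ c, N ≤ c ∧ GoodAt codePt y W c) {n : ℕ} {β : Bool}
    (hβ : ∀ᶠ a in atTop, Bs Oinf n a = β) : y (5 * n + 4) 0 = if β = true then 1 else 0 := by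
  obtain ⟨N, hN⟩ := eventually_atTop.1 hβ
  set W := 5 * n + 5 + (5 * N + 1) with hW
  obtain ⟨c1, hc1, g1⟩ := hgood W 1
  have d1 : 2 ^ N ∣ c1 := dvd_of_good hgood (by omega) g1
  have hc1' : c1 ≠ 0 := by omega
  have hbit := forced_bit (n := n) (c1 := c1) (c := (dig c1).getLastD 0) hc1'
    (C := clo n c1) rfl (by
      intro N2
      obtain ⟨c2, hc2, g2⟩ := hgood (W + c1 + (5 * N2 + 1)) 1
      refine ⟨c2, by omega, dvd_of_good hgood (by omega) g2, fun N3 => ?_⟩
      obtain ⟨c3, hc3, g3⟩ := hgood (W + c1 + (5 * N2 + 1) + c2 + (5 * N3 + 1)) 1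
      have g23 := good_add g2 g3 (by omega)
      have g123 := good_add g1 g23 (by omega)
      refine ⟨c3, by omega, dvd_of_good hgood (by omega) g3, ?_, ?_⟩
      · exact clo_of_good (by omega) g123 (by omega) g1
      · exact clo_of_good (by omega) g23 (by omega) g1) rfl
  have hlast : N ≤ (dig c1).getLastD 0 := by
    rw [← getLast_eq (dig_ne_nil hc1')]
    exact le_of_mem_dig d1 (List.getLast_mem (dig_ne_nil hc1'))
  rw [hN _ hlast] at hbit
  have h4 := (g1 (5 * n + 4) (by omega) 0 (by omega)).1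
  simp only [Nat.add_zero] at h4
  rw [codePt_four, ← hbit] at h4
  exact h4.symm

end

/-! ### the sets -/

/-- The number of the row for the indices `e`, `e'` and the number `n`. -/
def row (e e' n : ℕ) : ℕ := 5 * Nat.pair (Nat.pair e e') n + 4

lemma row_computable (e e' : ℕ) : Computable (row e e') := by
  apply Primrec.to_comp
  unfold row
  exact Primrec.nat_add.comp (Primrec.nat_mul.comp (Primrec.const 5)
    (Primrec₂.natPair.comp (Primrec.const _) Primrec.id)) (Primrec.const 4)

lemma exists_index_set {S : Set ℕ} (hS : IsSigmaFour S) :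
    ∃ e, ∀ n, n ∈ S ↔ ∃ a, ∀ j, Oinf e n a j = true := by
  obtain ⟨R, hR, h⟩ := hS
  obtain ⟨e, he⟩ := exists_index hR
  refine ⟨e, fun n => ?_⟩
  rw [h]
  simp_rw [oinf_iff he]

lemma row_value {x y : Pt} (hx : x = codePt) (hy : Solution x y) {A B : Set ℕ}
    (hAB : Disjoint A B) {e e' : ℕ} (hA : ∀ n, n ∈ A ↔ ∃ a, ∀ j, Oinf e n a j = true)
    (hB : ∀ n, n ∈ B ↔ ∃ a, ∀ j, Oinf e' n a j = true) (n : ℕ) :
    (n ∈ A → y (row e e' n) 0 = 1) ∧ (n ∈ B → y (row e e' n) 0 = 0) := by
  subst hx
  have hgood := exists_goodAt hy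
  constructor
  · intro h
    have h' : n ∉ B := Set.disjoint_left.1 hAB h
    rw [hA] at h
    rw [hB] at h'
    have := value_of_limit hgood (bs_true h h')
    simpa [row] using this
  · intro h
    have h' : n ∉ A := Set.disjoint_right.1 hAB h
    rw [hB] at h
    rw [hA] at h'
    have := value_of_limit hgood (bs_false h h')
    simpa [row] using this

lemma sigma_comp {S : Set ℕ} (hS : IsSigmaFour S) {g : ℕ → ℕ} (hg : Computable g) :
    IsSigmaFour {m | g m ∈ S} := by
  obtain ⟨R, hR, h⟩ := hS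
  refine ⟨fun p => R (g p.1, p.2), ?_, fun m => ?_⟩
  · have h1 : Computable (fun p : ℕ × ℕ × ℕ × ℕ × ℕ => (g p.1, p.2)) :=
      Computable.pair (hg.comp Computable.fst) Computable.snd
    obtain ⟨hdec, hc⟩ := hR
    exact ⟨fun p => hdec (g p.1, p.2), hc.comp h1⟩
  · exact h (g m)

/-- **Main theorem.** There is a computable point `x` of the shift on `(Fin 3)^(ℕ × ℕ)` such
that every solution of the Auslander-Ellis theorem for `x` separates all pairs of disjoint
`Σ⁰₄` sets, and for every solution `y` the set of the `r` with `y r 0 = 1` is not `Δ⁰₄`. -/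
theorem main : ∃ x : Pt, Computable (fun p : ℕ × ℕ => x p.1 p.2) ∧
    (∀ A B : Set ℕ, IsSigmaFour A → IsSigmaFour B → Disjoint A B →
      ∃ g : ℕ → ℕ, Computable g ∧ ∀ y : Pt, Solution x y →
        ∀ n, (n ∈ A → y (g n) 0 = 1) ∧ (n ∈ B → y (g n) 0 = 0)) ∧
    ∀ y : Pt, Solution x y → ¬ (IsSigmaFour {r | y r 0 = 1} ∧ IsSigmaFour {r | y r 0 ≠ 1}) := by
  refine ⟨codePt, codePt_computable, ?_, ?_⟩
  · intro A B hA hB hAB
    obtain ⟨e, he⟩ := exists_index_set hA
    obtain ⟨e', he'⟩ := exists_index_set hB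
    exact ⟨row e e', row_computable e e', fun y hy n => row_value rfl hy hAB he he' n⟩
  · rintro y hy ⟨h1, h2⟩
    have hdiag : Computable (fun m : ℕ => row m.unpair.1 m.unpair.2 m) := by
      apply Primrec.to_comp
      unfold row
      exact Primrec.nat_add.comp (Primrec.nat_mul.comp (Primrec.const 5)
        (Primrec₂.natPair.comp (Primrec₂.natPair.comp (Primrec.fst.comp Primrec.unpair)
          (Primrec.snd.comp Primrec.unpair)) Primrec.id)) (Primrec.const 4)
    obtain ⟨e, he⟩ := exists_index_set (sigma_comp h2 hdiag)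
    obtain ⟨e', he'⟩ := exists_index_set (sigma_comp h1 hdiag)
    have hdis : Disjoint {m : ℕ | row m.unpair.1 m.unpair.2 m ∈ {r | y r 0 ≠ 1}}
        {m : ℕ | row m.unpair.1 m.unpair.2 m ∈ {r | y r 0 = 1}} := by
      rw [Set.disjoint_left]
      intro m hm hm'
      exact hm hm'
    have hval := row_value rfl hy hdis he he' (Nat.pair e e')
    simp only [Set.mem_ofPred_eq, Nat.unpair_pair] at hval
    by_cases h : y (row e e' (Nat.pair e e')) 0 = 1
    · have := hval.2 h
      rw [h] at this
      exact absurd this (by decide)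
    · exact h (hval.1 h)

end Pool.Agent.Helper94.AE.Four
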